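import Pool.Agent.MNU.StmtsU
import Pool.Agent.Helper3_MNT.CNT

set_option autoImplicit false

/-!
# Row CNU (squad MNU): double counting of pairs
-/

namespace Pool.Agent.MNU.H41

open Finset Pool.Agent.MNT Pool.Agent.MNU

/-- CNU -/
theorem cnu : CnuStmt := by
  classical
  intro g P _ _ Λ R δ e₁ h
  have he : 0 ≤ e₁ := by
    have h1 := Λ.two_le _ Λ.top_mem
    obtain ⟨p, _, q, _, hpq⟩ := Finset.one_lt_card.1 (lt_of_lt_of_le one_lt_two h1)
    exact (abs_nonneg _).trans (h p q hpq)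
  obtain ⟨n2, hn2⟩ : ∃ n2 : ℝ, n2 = (Fintype.card P : ℝ) ^ 2 := ⟨_, rfl⟩
  have hn0 : 0 ≤ n2 := by rw [hn2]; positivity
  have hpairs : ∀ A : Finset P, |pairs A δ - pairs A (fun p q => Λ.lev {p, q})| ≤ n2 * e₁ := by
    intro A
    rw [hn2]
    refine MNT.H3.sum_diff A (fun p => A.erase p) δ (fun p q => Λ.lev {p, q}) e₁ he ?_
    intro p _ q hq
    exact h p q (Finset.ne_of_mem_erase hq).symm
  have hcross : |cross R Rᶜ δ - cross R Rᶜ (fun p q => Λ.lev {p, q})| ≤ n2 * e₁ := by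
    rw [hn2]
    refine MNT.H3.sum_diff R (fun _ => Rᶜ) δ (fun p q => Λ.lev {p, q}) e₁ he ?_
    intro p hp q hq
    refine h p q ?_
    rintro rfl
    exact (Finset.mem_compl.1 hq) hp
  have heq : ∑ d ∈ Λ.V, Λ.l d * u0 g (d ∩ R).card (d \ R).card =
      Psi g R (fun p q => Λ.lev {p, q}) := by
    unfold Psi
    rw [MNT.H3.pairs_lev, MNT.H3.cross_lev, MNT.H3.pairs_lev, Finset.mul_sum, Finset.mul_sum,
      Finset.mul_sum, ← Finset.sum_sub_distrib, ← Finset.sum_add_distrib]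
    refine Finset.sum_congr rfl fun d _ => ?_
    have h1 : d ∩ Rᶜ = d \ R := by
      ext q
      simp only [Finset.mem_inter, Finset.mem_compl, Finset.mem_sdiff]
    rw [h1]
    unfold u0
    ring
  rw [heq]
  have hg : (0 : ℝ) ≤ g := Nat.cast_nonneg g
  have hgam0 : 0 ≤ gm g := by unfold gm; positivity
  have hgam : gm g / 2 ≤ g + 1 := by
    unfold gm
    rw [div_div, div_le_iff₀ (by positivity)]
    nlinarith
  have hd : Psi g R δ - Psi g R (fun p q => Λ.lev {p, q}) =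
      (2 * (g : ℝ) + 9) / 2 * (pairs R δ - pairs R (fun p q => Λ.lev {p, q})) -
      (2 * g + 1) * (cross R Rᶜ δ - cross R Rᶜ (fun p q => Λ.lev {p, q})) +
      gm g / 2 * (pairs Rᶜ δ - pairs Rᶜ (fun p q => Λ.lev {p, q})) := by
    unfold Psi
    ring
  rw [hd]
  have h1 := abs_le.1 (hpairs R)
  have h2 := abs_le.1 (hpairs Rᶜ)
  have h3 := abs_le.1 hcross
  have hx : 0 ≤ n2 * e₁ := mul_nonneg hn0 he
  have hfin : (8 * (g : ℝ) + 16) * (Fintype.card P : ℝ) ^ 2 * e₁ = (8 * (g : ℝ) + 16) * (n2 * e₁) := by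
    rw [hn2]; ring
  rw [hfin]
  have c1 : 0 ≤ (2 * (g : ℝ) + 9) / 2 := by positivity
  have c2 : (0 : ℝ) ≤ 2 * g + 1 := by positivity
  have c3 : 0 ≤ gm g / 2 := by positivity
  rw [abs_le]
  constructor
  · nlinarith [mul_le_mul_of_nonneg_left h1.1 c1, mul_le_mul_of_nonneg_left h3.2 c2,
      mul_le_mul_of_nonneg_left h2.1 c3, mul_le_mul_of_nonneg_right hgam hx, mul_nonneg hg hx]
  · nlinarith [mul_le_mul_of_nonneg_left h1.2 c1, mul_le_mul_of_nonneg_left h3.1 c2,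
      mul_le_mul_of_nonneg_left h2.2 c3, mul_le_mul_of_nonneg_right hgam hx, mul_nonneg hg hx]

end Pool.Agent.MNU.H41
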