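import Pool.Agent.MNU.StmtsU

set_option autoImplicit false

/-!
# Row MOI (squad MNU): inverse change of coordinate
-/

namespace Pool.Agent.MNU.H41

open Polynomial Pool.Agent.MNU

section

variable {K : Type} [Field K] (α β γ δ : K)

theorem mob_zero (n : ℕ) : mob α β γ δ n 0 = 0 := by
  simp [mob]

theorem mob_add (n : ℕ) (p q : K[X]) :
    mob α β γ δ n (p + q) = mob α β γ δ n p + mob α β γ δ n q := by
  unfold mob
  rw [← Finset.sum_add_distrib]
  refine Finset.sum_congr rfl fun i _ => ?_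
  rw [coeff_add, C_add]
  ring

theorem mob_sum {ι : Type} (n : ℕ) (s : Finset ι) (f : ι → K[X]) :
    mob α β γ δ n (∑ i ∈ s, f i) = ∑ i ∈ s, mob α β γ δ n (f i) := by
  classical
  induction s using Finset.induction_on with
  | empty => simp [mob_zero]
  | insert a s ha ih => rw [Finset.sum_insert ha, Finset.sum_insert ha, mob_add, ih]

theorem mob_C_mul (n : ℕ) (a : K) (p : K[X]) :
    mob α β γ δ n (C a * p) = C a * mob α β γ δ n p := by
  unfold mob
  rw [Finset.mul_sum]
  refine Finset.sum_congr rfl fun i _ => ?_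
  rw [coeff_C_mul, C_mul]
  ring

theorem mob_X_pow (n i : ℕ) (hi : i ≤ n) :
    mob α β γ δ n (X ^ i) = (C α * X + C β) ^ i * (C γ * X + C δ) ^ (n - i) := by
  unfold mob
  rw [Finset.sum_eq_single i]
  · simp
  · intro j _ hj
    rw [coeff_X_pow, if_neg hj]
    simp
  · intro h
    exact absurd (Finset.mem_range.2 (by omega)) h

theorem mob_mul (m n : ℕ) (p q : K[X]) (hp : p.natDegree ≤ m) (hq : q.natDegree ≤ n) :
    mob α β γ δ (m + n) (p * q) = mob α β γ δ m p * mob α β γ δ n q := by
  have ep := p.as_sum_range_C_mul_X_pow' (n := m + 1) (by omega)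
  have eq' := q.as_sum_range_C_mul_X_pow' (n := n + 1) (by omega)
  rw [ep, eq', Finset.sum_mul_sum, mob_sum, mob_sum, mob_sum, Finset.sum_mul_sum]
  refine Finset.sum_congr rfl fun i hi => ?_
  rw [mob_sum]
  refine Finset.sum_congr rfl fun j hj => ?_
  have hi' : i ≤ m := by
    have := Finset.mem_range.1 hi
    omega
  have hj' : j ≤ n := by
    have := Finset.mem_range.1 hj
    omega
  rw [mob_C_mul, mob_C_mul, mob_X_pow _ _ _ _ m i hi', mob_X_pow _ _ _ _ n j hj']
  have e1 : C (p.coeff i) * X ^ i * (C (q.coeff j) * X ^ j) =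
      C (p.coeff i * q.coeff j) * X ^ (i + j) := by
    rw [C_mul, pow_add]
    ring
  rw [e1, mob_C_mul, mob_X_pow _ _ _ _ (m + n) (i + j) (by omega),
    show m + n - (i + j) = (m - i) + (n - j) by omega, pow_add, pow_add, C_mul]
  ring

theorem mob_pow (n : ℕ) (p : K[X]) (hp : p.natDegree ≤ 1) :
    mob α β γ δ n (p ^ n) = mob α β γ δ 1 p ^ n := by
  induction n with
  | zero =>
    rw [pow_zero, pow_zero, show (1 : K[X]) = X ^ 0 by simp, mob_X_pow _ _ _ _ 0 0 le_rfl]
    simp
  | succ n ih =>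
    rw [pow_succ, mob_mul, ih, pow_succ]
    · exact (natDegree_pow_le).trans (by nlinarith)
    · exact hp

theorem mob_lin (a b : K) :
    mob α β γ δ 1 (C a * X + C b) = C a * (C α * X + C β) + C b * (C γ * X + C δ) := by
  have e : (C a * X + C b : K[X]) = C a * X ^ 1 + C b * X ^ 0 := by simp
  rw [e, mob_add, mob_C_mul, mob_C_mul, mob_X_pow _ _ _ _ 1 1 le_rfl,
    mob_X_pow _ _ _ _ 1 0 zero_le_one]
  simp

end

/-- MOI. -/
theorem moi : MoiStmt := by
  intro K _ α β γ δ n p hp
  have hdeg : ∀ a b : K, (C a * X + C b : K[X]).natDegree ≤ 1 := fun a b => natDegree_linear_le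
  have hpd : ∀ (a b : K) (k : ℕ), ((C a * X + C b : K[X]) ^ k).natDegree ≤ k := by
    intro a b k
    refine (natDegree_pow_le).trans ?_
    have := hdeg a b
    nlinarith
  have key : ∀ i, i ≤ n → mob δ (-β) (-γ) α n ((C α * X + C β) ^ i * (C γ * X + C δ) ^ (n - i)) =
      C ((α * δ - β * γ) ^ n) * X ^ i := by
    intro i hi
    have h1 := mob_mul δ (-β) (-γ) α i (n - i) _ _ (hpd α β i) (hpd γ δ (n - i))
    rw [show i + (n - i) = n by omega] at h1
    rw [h1, mob_pow _ _ _ _ _ _ (hdeg α β), mob_pow _ _ _ _ _ _ (hdeg γ δ), mob_lin, mob_lin]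
    have e1 : C α * (C δ * X + C (-β)) + C β * (C (-γ) * X + C α) = C (α * δ - β * γ) * X := by
      simp only [C_neg, C_sub, C_mul]
      ring
    have e2 : C γ * (C δ * X + C (-β)) + C δ * (C (-γ) * X + C α) = C (α * δ - β * γ) := by
      simp only [C_neg, C_sub, C_mul]
      ring
    rw [e1, e2, mul_pow, C_pow]
    have e3 : (C (α * δ - β * γ) : K[X]) ^ n =
        C (α * δ - β * γ) ^ i * C (α * δ - β * γ) ^ (n - i) := by
      rw [← pow_add]
      congr 1
      omega
    rw [e3]
    ring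
  have e0 : mob α β γ δ n p = ∑ i ∈ Finset.range (n + 1),
      C (p.coeff i) * ((C α * X + C β) ^ i * (C γ * X + C δ) ^ (n - i)) := by
    unfold mob
    refine Finset.sum_congr rfl fun i _ => ?_
    ring
  rw [e0, mob_sum]
  have ep := p.as_sum_range_C_mul_X_pow' (n := n + 1) (by omega)
  conv_rhs => rw [ep, Finset.mul_sum]
  refine Finset.sum_congr rfl fun i hi => ?_
  have hi' : i ≤ n := by
    have := Finset.mem_range.1 hi
    omega
  rw [mob_C_mul, key i hi']
  ring

end Pool.Agent.MNU.H41
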